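import Pool.Agent.helper80.SV.Spec

/-! # sv: HPT -/

set_option autoImplicit false

namespace Pool.Agent.SV

open MvPolynomial Module

variable {ι κ : Type} [Fintype ι] [DecidableEq ι] [Fintype κ] [DecidableEq κ]

theorem HPT_bind (y : ι → ℂ) (φ : ι → MvPolynomial ι ℂ) (g : MvPolynomial ι ℂ) :
    eval y (bind₁ φ g) = eval (fun i => eval y (φ i)) g := by
  induction g using MvPolynomial.induction_on with
  | C a => simp
  | add p q hp hq => rw [map_add, map_add, hp, hq, map_add]
  | mul_X p i hp => rw [map_mul, map_mul, hp, bind₁_X_right, map_mul, eval_X]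

theorem HPT_val (c : ι → κ) (A : Finset ι) (L w : ι → ℂ) (t : ℂ) (z : ι → ℂ) (i : ι) :
    eval (hpt c A L w t z) (hsub c A L w t i) =
      ((1 - t) * (1 - t + t * Lval c A L w (c i))) * z i := by
  unfold hsub
  by_cases hi : i ∈ A
  · rw [if_pos hi]
    simp only [map_add, map_mul, eval_C, map_sum, eval_X]
    have hsum : ∑ j ∈ A.filter (fun j => c j = c i), L j * hpt c A L w t z j =
        (1 - t) * Lval c A L z (c i) := by
      have h1 : ∀ j ∈ A.filter (fun j => c j = c i), L j * hpt c A L w t z j =
          (1 - t + t * Lval c A L w (c i)) * (L j * z j) -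
            t * Lval c A L z (c i) * (L j * w j) := by
        intro j hj
        rw [Finset.mem_filter] at hj
        unfold hpt
        rw [if_pos hj.1, hj.2]
        ring
      rw [Finset.sum_congr rfl h1, Finset.sum_sub_distrib, ← Finset.mul_sum, ← Finset.mul_sum]
      have e1 : ∑ j ∈ A.filter (fun j => c j = c i), L j * z j = Lval c A L z (c i) := rfl
      have e2 : ∑ j ∈ A.filter (fun j => c j = c i), L j * w j = Lval c A L w (c i) := rfl
      rw [e1, e2]
      ring
    rw [hsum]
    unfold hpt
    rw [if_pos hi]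
    ring
  · rw [if_neg hi, eval_X]
    unfold hpt
    rw [if_neg hi]

theorem HPT_Lval_cut (c : ι → κ) (A : Finset ι) (L x : ι → ℂ) (k : κ) :
    Lval c A L (cut A x) k = Lval c A L x k := by
  unfold Lval
  refine Finset.sum_congr rfl fun j hj => ?_
  rw [Finset.mem_filter] at hj
  unfold cut
  rw [if_pos hj.1]

theorem HPT_cut (c : ι → κ) (A : Finset ι) (L w : ι → ℂ) (t : ℂ) (x : ι → ℂ) :
    cut A (hpt c A L w t x) = hpt c A L w t (cut A x) := by
  funext i
  by_cases hi : i ∈ A
  · have h1 : cut A (hpt c A L w t x) i = hpt c A L w t x i := by unfold cut; rw [if_pos hi]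
    have h2 : cut A x i = x i := by unfold cut; rw [if_pos hi]
    rw [h1]
    unfold hpt
    rw [if_pos hi, if_pos hi, HPT_Lval_cut, h2]
  · have h1 : cut A (hpt c A L w t x) i = 0 := by unfold cut; rw [if_neg hi]
    have h2 : cut A x i = 0 := by unfold cut; rw [if_neg hi]
    rw [h1]
    unfold hpt
    rw [if_neg hi, h2, mul_zero]

theorem HPT_key (hHOM : HOM_stmt) (c : ι → κ) (A B : Finset ι) (d : κ → ℕ) (L w : ι → ℂ) (t : ℂ)
    (f : MvPolynomial ι ℂ) (hf : f ∈ Sec c B d) (z : ι → ℂ) (i : ι)
    (h : eval z (pderiv i f) = 0) :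
    eval (hpt c A L w t z) (bind₁ (hsub c A L w t) (pderiv i f)) = 0 := by
  rw [HPT_bind]
  have h1 := (hHOM c B d f hf).2.1
    (fun k => (1 - t) * (1 - t + t * Lval c A L w k)) z i h
  have h2 : (fun i => eval (hpt c A L w t z) (hsub c A L w t i)) =
      fun i => ((1 - t) * (1 - t + t * Lval c A L w (c i))) * z i := by
    funext i
    exact HPT_val c A L w t z i
  rw [h2]
  exact h1

theorem HPT (hCHN : CHN_stmt) (hHOM : HOM_stmt) : HPT_stmt := by
  intro ι κ _ _ _ _ c A B d hAB L w t f hf x
  refine ⟨?_, ?_, ?_⟩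
  · intro h
    have hall : ∀ i, eval x (pderiv i f) = 0 := by
      intro i
      by_cases hi : i ∈ B
      · have := congrFun h i
        rw [gradL_apply, if_pos hi] at this
        exact this
      · rw [(hHOM c B d f hf).2.2.1 i hi, map_zero]
    funext j
    rw [gradL_apply]
    by_cases hj : j ∈ B
    · rw [if_pos hj, hCHN, map_sum]
      refine Finset.sum_eq_zero fun i _ => ?_
      rw [map_mul, HPT_key hHOM c A B d L w t f hf x i (hall i), zero_mul]
    · rw [if_neg hj]
      rfl
  · intro h
    have hall : ∀ i ∈ A, eval (cut A x) (pderiv i f) = 0 := by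
      intro i hi
      have := congrFun h i
      rw [gradL_apply, if_pos hi] at this
      exact this
    funext j
    rw [gradL_apply]
    by_cases hj : j ∈ A
    · rw [if_pos hj, hCHN, map_sum]
      refine Finset.sum_eq_zero fun i _ => ?_
      rw [map_mul]
      by_cases hi : i ∈ A
      · rw [HPT_cut, HPT_key hHOM c A B d L w t f hf (cut A x) i (hall i hi), zero_mul]
      · have hij : i ≠ j := by
          rintro rfl
          exact hi hj
        have h1 : hsub c A L w t i = X i := by unfold hsub; rw [if_neg hi]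
        rw [h1, pderiv_X_of_ne hij, map_zero, mul_zero]
    · rw [if_neg hj]
      rfl
  · funext i
    unfold hpt
    by_cases hi : i ∈ A
    · rw [if_pos hi]
      ring
    · rw [if_neg hi]
      ring

end Pool.Agent.SV
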